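import Mathlib
import Pool.Agent.HurewiczGroups.Real

set_option autoImplicit false

namespace Pool.Agent.Results.MP_88659e_gt.BorelContainmentFails

open Set
open Pool.Agent.HurewiczGroups (Hurewicz)

/-- There are a set `X` of reals with the Hurewicz property and an `F_sigma_delta` (in particular
Borel) set `B = ⋂ i, ⋃ j, K i j` of reals containing `X` such that no sigma-compact set `F`
satisfies `X ⊆ F ⊆ B`. -/
theorem result :
    ∃ (X : Set ℝ) (K : ℕ → ℕ → Set ℝ), (∀ i j, IsClosed (K i j)) ∧ Hurewicz X ∧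
      X ⊆ ⋂ i, ⋃ j, K i j ∧
      ¬ ∃ F : Set ℝ, IsSigmaCompact F ∧ X ⊆ F ∧ F ⊆ ⋂ i, ⋃ j, K i j :=
  Pool.Agent.HurewiczGroups.exists_real_counterexample

end Pool.Agent.Results.MP_88659e_gt.BorelContainmentFails
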