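import Pool.Agent.H96.HurMenger

set_option autoImplicit false

namespace Pool.Agent.Results.MP_88659e_gt.CHYesMillerNo

/-- The Hurewicz property of a set `X` of points of a space `Y`, in the form used in the frozen
statement of the problem: for every sequence of families of open sets of `Y` covering `X` one can
choose finite subfamilies such that each point of `X` is covered by all but finitely many of them. -/
def Hurewicz {Y : Type} [TopologicalSpace Y] (X : Set Y) : Prop :=
  ∀ U : ℕ → Set (Set Y), (∀ n, (∀ u ∈ U n, IsOpen u) ∧ X ⊆ ⋃₀ U n) →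
    ∃ F : ℕ → Finset (Set Y), (∀ n, (↑(F n) : Set (Set Y)) ⊆ U n) ∧
      ∀ x ∈ X, ∀ᶠ n in Filter.atTop, x ∈ ⋃₀ ((↑(F n) : Set (Set Y)))

/-- The Menger property of a set `X` of points of a space `Y`: as above, but each point of `X` is
only required to be covered by at least one of the chosen finite subfamilies. -/
def Menger {Y : Type} [TopologicalSpace Y] (X : Set Y) : Prop :=
  ∀ U : ℕ → Set (Set Y), (∀ n, (∀ u ∈ U n, IsOpen u) ∧ X ⊆ ⋃₀ U n) →
    ∃ F : ℕ → Finset (Set Y), (∀ n, (↑(F n) : Set (Set Y)) ⊆ U n) ∧
      ∀ x ∈ X, ∃ n, x ∈ ⋃₀ ((↑(F n) : Set (Set Y)))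

/-- The statement asked about in Q1: some Polish group `G` has a subset `X` with the Hurewicz
property such that the subgroup generated by `X` is Borel and not sigma-compact. -/
def Example : Prop :=
  ∃ (G : Type) (_ : TopologicalSpace G) (_ : PolishSpace G) (_ : Group G)
    (_ : IsTopologicalGroup G) (X : Set G),
    @MeasurableSet G (borel G) ((Subgroup.closure X : Subgroup G) : Set G) ∧
    ¬ IsSigmaCompact ((Subgroup.closure X : Subgroup G) : Set G) ∧
    Hurewicz X

/-- All finite powers of Hurewicz subsets of Polish spaces are Menger. -/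
def HurewiczPowersMenger : Prop :=
  ∀ (Y : Type) [TopologicalSpace Y] [PolishSpace Y] (X : Set Y), Hurewicz X →
    ∀ n : ℕ, Menger {x : Fin n → Y | ∀ i, x i ∈ X}

/-- The continuum hypothesis gives a positive answer; the hypothesis that all finite powers of
Hurewicz sets are Menger (it holds in the Miller model) gives a negative one. -/
theorem result :
    (Cardinal.aleph.{0} 1 = Cardinal.continuum → Example) ∧
    (HurewiczPowersMenger → ¬ Example) :=
  ⟨fun h => Pool.H96.Hur.frozen_of_CH h, fun h => Pool.H96.Hur.not_frozen_of_powers h⟩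

end Pool.Agent.Results.MP_88659e_gt.CHYesMillerNo
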