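import Pool.Agent.H55.Sig.Hz7
import Pool.Agent.COH.Mn

set_option autoImplicit false

/-!
# MP_88659e_gt: the question about Borel groups generated by Hurewicz sets is independent of ZFC
-/

namespace Pool.Agent.Results.MP_88659e_gt.Independent

open Pool.Agent.H55.SC Pool.Agent.H55.CS Pool.Agent.H55.HZ Pool.Agent.COH

/-- There is a countable wellfounded model `(M, E)` of `ZFC` in which the Cantor group (all subsets of `ω` with the
symmetric difference) has a subset `X` with the Hurewicz property which generates a Borel subgroup `H` that is not
σ-compact, and there is a countable wellfounded model of `ZFC` in which every Borel subgroup of a Polish group which is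
generated by a subset with the Hurewicz property is σ-compact. -/
theorem result :
    (∃ (M : Type 1) (E : M → M → Prop), Countable M ∧ WellFounded E ∧ ZFC E ∧
      ∃ w, IsOmega E w ∧ ∃ X H, IsHurewicz E w X ∧ IsGeneratedBy E w X H ∧ IsBorel E w H ∧ ¬ IsSigmaCompact E w H) ∧
    ∃ (M : Type 1) (E : M → M → Prop), Countable M ∧ WellFounded E ∧ ZFC E ∧
      ∃ w, IsOmega E w ∧ HurewiczGroupsSigmaCompact E w :=
  ⟨Pool.Agent.H55.Hz.main_result, Pool.Agent.COH.main_no⟩

end Pool.Agent.Results.MP_88659e_gt.Independent
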