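import Mathlib
import Pool.Agent.HurewiczGroups.Group

set_option autoImplicit false

namespace Pool.Agent.Results.MP_88659e_gt.InvariantGdelta

open Set
open Pool.Agent.HurewiczGroups (Hurewicz)

/-- Let `G` be a Polish group and let `X ⊆ G` have the Hurewicz property, and suppose that the
subgroup `H` generated by `X` is analytic (for instance Borel). Let `L` be any set which is an
intersection of `G_delta` subsets `M` of `G` with `H ⊆ M` and `M H ⊆ M`. Then there is a
sigma-compact set `F` with `H ⊆ F ⊆ L`. In particular (take `L = H`), if `H` is itself such an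
intersection, for example an intersection of `F_sigma` subgroups of `G`, then `H` is
sigma-compact. -/
theorem result {G : Type*} [Group G] [TopologicalSpace G] [IsTopologicalGroup G] [PolishSpace G]
    (X : Set G) (hX : Hurewicz X)
    (hA : MeasureTheory.AnalyticSet ((Subgroup.closure X : Subgroup G) : Set G))
    (L : Set G)
    (hL : ∀ g : G, g ∉ L → ∃ M : Set G, IsGδ M ∧
      ((Subgroup.closure X : Subgroup G) : Set G) ⊆ M ∧
      (∀ m ∈ M, ∀ h ∈ Subgroup.closure X, m * h ∈ M) ∧ g ∉ M) :
    ∃ F : Set G, IsSigmaCompact F ∧
      ((Subgroup.closure X : Subgroup G) : Set G) ⊆ F ∧ F ⊆ L :=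
  Pool.Agent.HurewiczGroups.exists_sigmaCompact_of_invariant hX hA L hL

end Pool.Agent.Results.MP_88659e_gt.InvariantGdelta
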